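import Pool.Agent.Helper18_X2.Stmts
import Pool.Agent.Helper96_PP.S1g

/-!
# AWC, part X2, module S1C: the case of a simple chief factor (copy of `Helper96_PP/S1g.lean`)
-/

open scoped BigOperators

noncomputable section

namespace Pool.Agent.PP.X2.H57

open Pool.Agent.Helper51_AWC Pool.Agent.Helper79_WRA Pool.Agent.PP Pool.Agent.PP.X2

/-- like `H96.simple_transfer`, with the isomorphism -/
theorem iso_transfer {G H : Type} [Group G] [Finite G] [Group H] [Finite H] {N : Subgroup G}
    (h : NASimple (N ⧸ (Subgroup.center G).subgroupOf N))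
    {Q : Subgroup H} (e : Q ≃* N) (hmu : mu Q ≤ mu N) :
    Nonempty ((Q ⧸ (Subgroup.center H).subgroupOf Q) ≃*
      (N ⧸ (Subgroup.center G).subgroupOf N)) ∧ mu Q = mu N := by
  have hc := H96.center_eq_of_simple h
  have hZQ : (Subgroup.center H).subgroupOf Q ≤ Subgroup.center Q := by
    intro x hx
    rw [Subgroup.mem_center_iff]
    intro y
    exact Subtype.ext (Subgroup.mem_center_iff.1 (Subgroup.mem_subgroupOf.1 hx) y)
  have hmap : (Subgroup.center Q).map e.toMonoidHom = Subgroup.center N := by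
    ext y
    rw [Subgroup.mem_map, Subgroup.mem_center_iff]
    constructor
    · rintro ⟨x, hx, rfl⟩ z
      have h1 := Subgroup.mem_center_iff.1 hx (e.symm z)
      have h2 := congrArg e h1
      rw [map_mul, map_mul, MulEquiv.apply_symm_apply] at h2
      exact h2
    · intro hy
      refine ⟨e.symm y, ?_, MulEquiv.apply_symm_apply e y⟩
      rw [Subgroup.mem_center_iff]
      intro z
      apply e.injective
      rw [map_mul, map_mul, MulEquiv.apply_symm_apply]
      exact hy (e z)
  have hidx : (Subgroup.center Q).index = (Subgroup.center N).index := by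
    rw [← hmap]
    exact (Subgroup.index_map_equiv (Subgroup.center Q) e).symm
  have h1 : mu N = (Subgroup.center N).index := by
    rw [hc]
    rfl
  have h2 : mu Q = ((Subgroup.center H).subgroupOf Q).index := rfl
  have h3 := Subgroup.relIndex_mul_index hZQ
  rw [← h2, hidx, ← h1] at h3
  have h4 : mu N ≠ 0 := Subgroup.index_ne_zero_of_finite
  have h5 : ((Subgroup.center H).subgroupOf Q).relIndex (Subgroup.center Q) ≠ 0 :=
    Subgroup.index_ne_zero_of_finite
  have h6 : ((Subgroup.center H).subgroupOf Q).relIndex (Subgroup.center Q) = 1 := by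
    by_contra hne
    have h7 : 2 ≤ ((Subgroup.center H).subgroupOf Q).relIndex (Subgroup.center Q) := by omega
    have h8 := Nat.mul_le_mul_right (mu N) h7
    omega
  rw [h6, one_mul] at h3
  refine ⟨?_, h3.symm⟩
  have h7 : (Subgroup.center H).subgroupOf Q = Subgroup.center Q :=
    le_antisymm hZQ (Subgroup.relIndex_eq_one.1 h6)
  refine ⟨QuotientGroup.congr ((Subgroup.center H).subgroupOf Q)
    ((Subgroup.center G).subgroupOf N) e ?_⟩
  rw [h7, ← hc]
  exact hmap

/-- S1C -/
theorem s1c (hAdd : AddStmt) (hFr : FrStmt) (hPs3 : Ps3Stmt)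
    (hSum : SumStmt) (hDbln : DblnStmt) (hS1m : S1mStmt) (hHyt : HytStmt) : S1cStmt := by
  intro ℓ _ F _ hF 𝒜 h𝒜 S _ _ hS hℓS hAS G _ _ N hN hO hNS hHyp hlt e0 he0 hp0
  obtain ⟨θ⟩ := hNS
  have hNA : NASimple (N ⧸ (Subgroup.center G).subgroupOf N) := H96.NASimple.of_equiv θ hS
  apply hAdd ℓ F hF G N hN e0 he0
  intro e he hee
  have hp : Pos ℓ e N := H46.pos_mono he.1 (by rw [H46.mulF_comm he.1.1, hee]) hp0
  obtain ⟨b, hb0, hb, hbe⟩ := H46.exists_blk he.2.1 N
  obtain ⟨f1, f2, f3, f4⟩ := hFr ℓ F hF G N N hN hN le_rfl e he hp b hb0 hb hbe (stabF b)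
    (fun g => Iff.rfl)
  rw [f4]
  set T := stabF b with hT
  have hNT : N ≤ T := by
    intro g hgN x
    by_cases hx : x ∈ N
    · exact hb.1.1 ⟨x, hx⟩ ⟨g, hgN⟩
    · have hx' : g * x * g⁻¹ ∉ N := by
        intro h
        apply hx
        have := hN.conj_mem _ h g⁻¹
        have e2 : g⁻¹ * (g * x * g⁻¹) * g⁻¹⁻¹ = x := by group
        rwa [e2] at this
      rw [hb0 _ hx, hb0 _ hx']
  let M : Subgroup T := N.subgroupOf T
  have hM : M.Normal := hN.subgroupOf T
  let ι : M ≃* N := Subgroup.subgroupOfEquivOfLe hNT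
  let bT : T → F := fun t => b t
  have hbTM : IsBlk (fun t : M => bT t) := H18.blk_equiv ι hb
  have hbT0 : ∀ x, x ∉ M → bT x = 0 := fun x hx => hb0 x (fun h => hx h)
  have hbTc : IsCl bT := fun x y => y.2 x
  have hsb : SBlk M bT := ⟨hbT0, hbTc, hbTM⟩
  let eT : T → F := fun t => mulF e b t
  have hbb : mulF b b = b := by
    have h1 := H75.mulF_res N b hb0
    funext x
    by_cases hx : x ∈ N
    · have h2 := congrFun h1 ⟨x, hx⟩
      have h3 : mulF b b x = mulF (fun t : N => b t) (fun t : N => b t) ⟨x, hx⟩ := h2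
      rw [h3, hb.1.2]
    · rw [hb0 x hx]
      exact H75.mulF_supp N hb0 hb0 x hx
  have hmul : mulF eT bT = eT := by
    have h1 := H75.mulF_res T (a := mulF e b) b f1
    have h2 : mulF (mulF e b) b = mulF e b := by
      apply ma_injective
      rw [ma_mul, ma_mul, mul_assoc, ← ma_mul, hbb]
    rw [h2] at h1
    exact h1.symm
  have heT : eT ≠ 0 := by
    intro h0
    apply hbe
    funext x
    by_cases hx : x ∈ T
    · exact congrFun h0 ⟨x, hx⟩
    · exact f1 x hx
  obtain ⟨τ, hτ⟩ := H59.exists_lift ℓ F hF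
  have hmuM : mu M ≤ mu N := by
    have h1 : (Subgroup.center G).subgroupOf T ≤ Subgroup.center T := by
      intro x hx
      rw [Subgroup.mem_center_iff]
      intro y
      exact Subtype.ext (Subgroup.mem_center_iff.1 (Subgroup.mem_subgroupOf.1 hx) y)
    have h2 : ((Subgroup.center G).subgroupOf T).relIndex M = (Subgroup.center G).relIndex N :=
      Subgroup.relIndex_subgroupOf hNT
    unfold mu
    rw [← h2]
    apply Nat.le_of_dvd
    · exact Nat.pos_of_ne_zero Subgroup.index_ne_zero_of_finite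
    · exact Subgroup.relIndex_dvd_of_le_left _ h1
  have hall : DAll τ ℓ M bT := by
    refine hDbln ℓ F hF τ hτ T M hM bT hsb ?_ ?_
    · intro hdz
      apply heT
      refine (hPs3 ℓ F hF T M hM (fun t : M => bT t) hbTM ?_ eT f2 ?_).2 hdz f3
      · rw [H46.ext0_restr hbT0]
        rw [eq_top_iff]
        intro g _ x
        exact hbTc x g
      · rw [H46.ext0_restr hbT0]
        exact hmul
    · intro H₁ _ _ Q hQ hiso hmu hnil hemb
      obtain ⟨ε⟩ := hiso
      obtain ⟨i, hi⟩ := hemb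
      obtain ⟨k1, k2⟩ := iso_transfer hNA (ε.trans ι) (hmu.trans hmuM)
      obtain ⟨κ⟩ := k1
      have hHT : Hyp ℓ F 𝒜 T := by
        refine (hHyt ℓ F 𝒜 G hHyp).2.2 T (T.subtype.prod 1) ?_
        intro x y hxy
        exact Subtype.ext (congrArg Prod.fst hxy)
      refine hS1m ℓ F hF 𝒜 h𝒜 S hS hℓS hAS H₁ Q hQ (H96.opCore_bot_of_equiv (ε.trans ι) hO)
        ⟨κ.trans θ⟩ hnil ((hHyt ℓ F 𝒜 T hHT).2.2 H₁ i hi) ?_
      rw [k2]
      exact hlt
  rw [hSum ℓ F hF τ hτ T M hM bT hsb hall eT f2 hmul, mul_zero]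

end Pool.Agent.PP.X2.H57
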